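import Mathlib

/-!
# Project HK (Q2 of MM): definitions

Nodes `-K, …, K` with multiplicity `3` at `a ≤ 0` and `4` at `a > 0`; `RR a` is the power series of the
function `f` with `(x + 1/2) f (x + 1) = x f x` at the node `a`, relative to `f` at `0`. `J h` is the sum of
the residues of `h f / W`, `hd L k` the Hankel determinant of a linear functional.
-/

set_option autoImplicit false

namespace Pool.Agent.H78.HK

open Finset Polynomial

/-- multiplicity of the node `a` -/
def mu (a : ℤ) : ℕ := if a ≤ 0 then 3 else 4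

/-- the nodes -/
noncomputable def nod (K : ℕ) : Finset ℤ := Icc (-(K : ℤ)) K

section

variable (F : Type) [Field F]

/-- the linear series `c + y` -/
noncomputable def lin (c : F) : PowerSeries F := PowerSeries.C c + PowerSeries.X

/-- the jets of `f` at the node `a` -/
noncomputable def RR (a : ℤ) : PowerSeries F :=
  if a ≤ 0 then ∏ b ∈ range a.natAbs, lin F (-(b : F) - 1 / 2) * (lin F (-(b : F) - 1))⁻¹
  else PowerSeries.X * (∏ b ∈ range (a.natAbs - 1), lin F ((b : F) + 1)) *
    ∏ b ∈ range a.natAbs, (lin F ((b : F) + 1 / 2))⁻¹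

/-- `∏ (y + a - a')^(-mu a')` over the nodes `a' ≠ a` -/
noncomputable def WI (K : ℕ) (a : ℤ) : PowerSeries F :=
  ∏ a' ∈ (nod K).erase a, ((lin F ((a : F) - (a' : F)))⁻¹) ^ mu a'

/-- the expansion of a polynomial at the node `a` -/
noncomputable def sh (h : F[X]) (a : ℤ) : PowerSeries F := (taylor (a : F) h : F[X])

/-- the residue at the node `a` -/
noncomputable def rho (K : ℕ) (a : ℤ) (h : F[X]) : F :=
  PowerSeries.coeff (mu a - 1) (sh F h a * RR F a * WI F K a)

/-- the sum of the residues, as a linear functional -/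
noncomputable def J (K : ℕ) : F[X] →ₗ[F] F where
  toFun h := ∑ a ∈ nod K, rho F K a h
  map_add' g h := by
    simp only [rho, sh, map_add, Polynomial.coe_add, add_mul, Finset.sum_add_distrib]
  map_smul' c h := by
    simp only [rho, sh, map_smul, RingHom.id_apply, smul_eq_mul, Finset.mul_sum]
    refine Finset.sum_congr rfl fun a _ => ?_
    rw [Polynomial.smul_eq_C_mul, Polynomial.coe_mul, Polynomial.coe_C, mul_assoc, mul_assoc,
      PowerSeries.coeff_C_mul, mul_assoc]

theorem J_apply (K : ℕ) (h : F[X]) : J F K h = ∑ a ∈ nod K, rho F K a h := rfl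

variable {F}

/-- Hankel determinant of a linear functional -/
noncomputable def hd (L : F[X] →ₗ[F] F) (k : ℕ) : F :=
  (Matrix.of fun i j : Fin k => L (X ^ (i.val + j.val))).det

end

/-- `p` is a Wieferich prime (primality is a separate hypothesis); same as `H11.NW.Wf`. -/
abbrev Wf (p : ℕ) : Prop := p ^ 2 ∣ 2 ^ (p - 1) - 1

/-- total multiplicity of the class of `u` modulo `l` -/
noncomputable def TT (K l u : ℕ) : ℕ := ∑ a ∈ (nod K).filter (fun a => a % (l : ℤ) = u), mu a

/-- `1` on the classes `1 ≤ u ≤ (l-1)/2`, where `f` is divisible by `l` -/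
def oo (l u : ℕ) : ℕ := if 1 ≤ u ∧ 2 * u < l then 1 else 0

end Pool.Agent.H78.HK
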